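import Pool.Agent.Lib.MP_8865d3_nt.Lr.Fin

/-! The inequality from the inequality for valuations. -/

namespace Pool.Agent.Lib.MP_651af7_nt.Nx

open MvPolynomial Module Pool.Agent.Lib.MP_651af7_nt Av Bx Height NumberField
open Pool.Agent.Lib.MP_8865d3_nt Lr
open scoped WithZero

/-- The inequality holds for all discrete valuations at all generic points. -/
def VI {k κ β γ : Type} [Field k] (I : Ideal (MvPolynomial κ k)) (g : ℕ)
    (F : β → MvPolynomial κ k) (G : γ → MvPolynomial κ k) : Prop :=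
  ∀ (E : Type) [Field E] [Algebra k E] (ξ : κ → E),
    (∀ P d, P.IsHomogeneous d → (aeval ξ P = 0 ↔ P ∈ I)) → ∀ v : Valuation E ℤᵐ⁰,
      (∀ c : k, v (algebraMap k E c) ≤ 1) → ∀ l, VIneq v ξ g F (G l)

section

variable {k L ι κ β γ T : Type} [Field k] [Field L] [CharZero L] [Algebra k L]
  [Fintype ι] [Fintype κ] {n r : ℕ} {A : AV L ι} {σ : Fin r → ι → L}

theorem ord_key (hσ : A.LieBasis σ)
    {I : Ideal (MvPolynomial κ k)} (hI : (I.map (map (algebraMap k L))).IsPrime)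
    {φ₁ : ι → MvPolynomial κ L} {φ₂ : Fin (n + 1) → MvPolynomial κ L}
    {ψ : κ → MvPolynomial (ι ⊕ Fin (n + 1)) L}
    (hb : Bir (I.map (map (algebraMap k L))) A.I φ₁ φ₂ ψ)
    {Ψ : T → κ → MvPolynomial (ι ⊕ Fin (n + 1)) L}
    (hΨ : ∀ t i l, Ψ t i * ψ l - Ψ t l * ψ i ∈ pr A.I n)
    {F : β → MvPolynomial κ k} {G : γ → MvPolynomial κ k} {e e' : ℕ}
    (hF : ∀ l, (F l).IsHomogeneous e) (hG : ∀ l, (G l).IsHomogeneous e')
    (hv : VI I (r + n) F G) (lam : Fin (n + 1) → ℕ) :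
    Sv.Stm.ord (pr A.I n) lam (fun q : T × κ => Ψ q.1 q.2 ^ (r + n + 1)) +
        Sv.Stm.ord (pr A.I n) lam (fun l => aeval ψ (map (algebraMap k L) (F l)) *
          ∏ j, X (.inr j)) + e' * Sv.Stm.ord (pr A.I n) lam ψ ≤
      (∑ j, lam j : ℕ) + Sv.Stm.ord (pr A.I n) lam
        (fun q : γ × ι × T × (Fin (r + n + 1) → κ) => aeval ψ (map (algebraMap k L) (G q.1)) *
          wr A σ (Ψ q.2.2.1) q.2.1 q.2.2.2) + e * Sv.Stm.ord (pr A.I n) lam ψ := by
  have : (pr A.I n).IsPrime := Sv.p0_prime_inl A.isPrime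
  simp only [aeval_map_algebraMap]
  refine ord_le (P := pr A.I n) rfl hΨ (vp_tan hσ) (sg_vp _ lam) hF hG fun v h l =>
    hv _ _ (fun P d hP => ?_) v h l
  have h1 : aeval (gp (pr A.I n)) (aeval ψ P) = aeval (fun i => aeval (gp (pr A.I n)) (ψ i)) P :=
    comp_aeval_apply ψ ((aeval (gp (pr A.I n)) : _ →ₐ[L] _).restrictScalars k) P
  rw [← h1, aeval_gp_eq_zero, ← aeval_map_algebraMap L]
  exact ⟨fun h => mem_of_map_mem (not_not.1 fun h0 => hb.pull hI (hP.map _) h0 h),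
    fun h => hb.map _ (Ideal.mem_map_of_mem _ h)⟩

end

variable {k L : Type} [Field k] [Field L] [NumberField L] [Algebra k L] [Algebra.IsAlgebraic k L]
  {ι κ β γ : Type} [Fintype ι] [Fintype κ] [Fintype β] [Fintype γ]
  {n r g e e' : ℕ} {I : Ideal (MvPolynomial κ k)} {φ₁ : ι → MvPolynomial κ L}
  {φ₂ : Fin (n + 1) → MvPolynomial κ L} {ψ : κ → MvPolynomial (ι ⊕ Fin (n + 1)) L}

theorem core (A : AV L ι) (hI : ∀ P ∈ I, ∀ d, homogeneousComponent d P ∈ I)
    (hI' : (I.map (map (algebraMap k L))).IsPrime) (hs : Smooth I g)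
    (hb : Bir (I.map (map (algebraMap k L))) A.I φ₁ φ₂ ψ) {F : β → MvPolynomial κ k}
    {G : γ → MvPolynomial κ k} (hF : ∀ l, (F l).IsHomogeneous e) (hG : ∀ l, (G l).IsHomogeneous e')
    (hv : VI I g F G) {ε : ℝ} (hε : 0 < ε) :
    Concl (I.map (map (algebraMap k L))) g φ₂ (fun l => map (algebraMap k L) (F l)) e
      (fun l => map (algebraMap k L) (G l)) e' ε := by
  have hP := pr_prime A.isPrime n
  obtain ⟨Θ, t, t1, t2, t3⟩ := exists_good hb (isWeightedHomogeneous_one _ _)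
    ((Ideal.ne_top_iff_one _).1 hP.ne_top)
  by_cases h0 : ∃ (x : κ → L) (p : ι → L) (y : Fin (n + 1) → L),
    Good (I.map (map (algebraMap k L))) φ₁ φ₂ ψ x p y
  swap
  · exact ⟨Θ, t, t1, t2, fun S => ⟨0, 0, fun x x0 xz xΘ _ _ => (h0
      ⟨_, _, _, (t3 x x0 xz xΘ).1⟩).elim⟩⟩
  obtain ⟨x, p, y, hx⟩ := h0
  obtain ⟨r, σ, hσ⟩ := exists_lieBasis A
  obtain rfl := dim_eq hσ hI hs hb hx
  obtain ⟨b, hψ⟩ := hb.hom
  obtain ⟨T, _, d, Ψ, h1, h2, h3, h4⟩ := exists_rep' A hψ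
    (hb.id.1.imp fun i hi e => hi (hb.map_pr _ e))
  refine main_of (b := b) hσ (Ds.hom_map hI) hb h1 h2 h3 (fun l => (hF l).map _)
    (fun l => (hG l).map _) (fun ε hε => ?_) hε
  have g1 := fun q : T × κ => (h1 q.1 q.2).pow (r + n + 1)
  have g2 := fun l => (psi_hom hψ ((hF l).map (algebraMap k L))).mul prod_hom
  have g3 := fun q : γ × ι × T × (Fin (r + n + 1) → κ) =>
    (psi_hom hψ ((hG q.1).map (algebraMap k L))).mul
      (wr_hom (A := A) (σ := σ) (h1 q.2.2.1) q.2.1 q.2.2.2)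
  exact main_W2 A g1 g2 g3 hψ (h4 _) e' e (fun lam _ => ord_key hσ hI' hb h2 hF hG hv lam) hε

omit [Algebra.IsAlgebraic k L] [NumberField L] [Algebra k L] [Field L] in
theorem of_model [NumberField k] (hI : Var I) (hs : Smooth I g)
    {J : Ideal (MvPolynomial ι (AlgebraicClosure k))} {A : Type} [AddCommGroup A]
    {co : A → ι → AlgebraicClosure k} (hJ : Ds.Pts J co) (hm : Ds.HasModel co)
    {φ : ι → MvPolynomial κ (AlgebraicClosure k)} {χ : Fin (n + 1) → MvPolynomial κ k}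
    {ψ : κ → MvPolynomial (ι ⊕ Fin (n + 1)) (AlgebraicClosure k)}
    (hb : BirP (I.map (map (algebraMap k (AlgebraicClosure k)))) J φ
      (fun j => map (algebraMap k (AlgebraicClosure k)) (χ j)) ψ)
    {F : β → MvPolynomial κ k} (hF : ∀ l, (F l).IsHomogeneous e)
    {G : γ → MvPolynomial κ k} (hG : ∀ l, (G l).IsHomogeneous e')
    (hv : VI I g F G) {ε : ℝ} (hε : 0 < ε) : Concl I g χ F e G e' ε := by
  obtain ⟨L, hL, m, B, φ', ψ', h1, h2⟩ := descendP hI hJ hm hb.bir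
  have : NumberField L := NumberField.of_module_finite k L
  exact Concl.down (K := L) (core B hI.hom h1 hs h2 hF hG hv hε)

end Pool.Agent.Lib.MP_651af7_nt.Nx
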