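import Pool.Agent.Lib.MP_8865d3_nt.Lr.Defs

/-! Divisors with simple normal crossings. -/

namespace Pool.Agent.Lib.MP_651af7_nt.Nx

open MvPolynomial Pool.Agent.Lib.MP_8865d3_nt.Lr

variable {k K : Type} [Field k] [Field K] [Algebra k K] {κ β : Type}

/-- `K` is the function field of the variety of `I`, with generic point `ξ`, and at each closed
point the forms `D` generate the ideal of a product of distinct members of a system of `g`
generators of the maximal ideal. -/
structure Snc (I : Ideal (MvPolynomial κ k)) (g : ℕ) (D : β → MvPolynomial κ k) (ξ : κ → K) :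
    Prop where
  ne : ξ ≠ 0
  ker : ∀ P d, P.IsHomogeneous d → (aeval ξ P = 0 ↔ P ∈ I)
  top : IntermediateField.adjoin k (Set.range fun p : κ × κ => ξ p.1 / ξ p.2) = ⊤
  nc : ∀ O, Loc k ξ O →
    ∃ (i : κ) (z : Fin g → O.toSubring) (m : Fin g → ℕ), Nc ξ D O i z m ∧ ∀ j, m j ≤ 1

end Pool.Agent.Lib.MP_651af7_nt.Nx
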